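import Pool.Agent.SQD.Stmts
import Pool.Agent.Common_Sieve.Bonferroni
import Pool.Agent.Common_Sieve.Count

/-!
# SQD, row SVE: the pure sieve of Brun
-/

set_option autoImplicit false

open Finset

open scoped BigOperators

noncomputable section

namespace Pool.Agent.SQD.H89

open Pool.Agent.SQD Pool.Agent.Common_Sieve

/-- the bad residues -/
def Pk (L c d : ℕ) (q : ℕ) (m : ℤ) : Prop :=
  ∃ k : ℕ, 1 ≤ k ∧ k ≤ L ∧ (q : ℤ) ∣ (d : ℤ) * m - c * (k : ℤ) ^ 2

theorem pk_per (L c d : ℕ) (q : ℕ) (m : ℤ) : Pk L c d q (m + q) ↔ Pk L c d q m := by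
  have h : ∀ k : ℕ, ((q : ℤ) ∣ (d : ℤ) * (m + q) - c * (k : ℤ) ^ 2 ↔
      (q : ℤ) ∣ (d : ℤ) * m - c * (k : ℤ) ^ 2) := by
    intro k
    have e : (d : ℤ) * (m + q) - c * (k : ℤ) ^ 2 =
        ((d : ℤ) * m - c * (k : ℤ) ^ 2) + (q : ℤ) * d := by ring
    rw [e]
    exact dvd_add_left (dvd_mul_right _ _)
  unfold Pk
  simp only [h]

open Classical in
theorem cnt_pk (L c d q : ℕ) (hL : 1 ≤ L) (hq : q.Prime) (hLq : 2 * L ^ 2 < q) (hc : ¬ q ∣ c)
    (hd : ¬ q ∣ d) : cnt (Pk L c d) q = L := by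
  haveI : Fact q.Prime := ⟨hq⟩
  have h2L : 2 * L < q := by nlinarith
  have hc' : (c : ZMod q) ≠ 0 := fun h => hc ((ZMod.natCast_eq_zero_iff _ _).1 h)
  have hd' : (d : ZMod q) ≠ 0 := fun h => hd ((ZMod.natCast_eq_zero_iff _ _).1 h)
  let f : ℕ → ℕ := fun k => ((c : ZMod q) * (k : ZMod q) ^ 2 * (d : ZMod q)⁻¹).val
  have himg : (range q).filter (fun r : ℕ => Pk L c d q (r : ℤ)) = (Finset.Icc 1 L).image f := by
    ext r
    simp only [Finset.mem_filter, Finset.mem_range, Finset.mem_image, Finset.mem_Icc]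
    have hk : ∀ k : ℕ, ((q : ℤ) ∣ (d : ℤ) * (r : ℤ) - c * (k : ℤ) ^ 2 ↔
        (d : ZMod q) * (r : ZMod q) = (c : ZMod q) * (k : ZMod q) ^ 2) := by
      intro k
      rw [← ZMod.intCast_zmod_eq_zero_iff_dvd]
      push_cast
      exact sub_eq_zero
    constructor
    · rintro ⟨hr, k, hk1, hk2, hk3⟩
      refine ⟨k, ⟨hk1, hk2⟩, ?_⟩
      have h1 := (hk k).1 hk3
      show ((c : ZMod q) * (k : ZMod q) ^ 2 * (d : ZMod q)⁻¹).val = r
      rw [← h1, mul_comm (d : ZMod q), mul_assoc, mul_inv_cancel₀ hd', mul_one,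
        ZMod.val_natCast, Nat.mod_eq_of_lt hr]
    · rintro ⟨k, ⟨hk1, hk2⟩, hk3⟩
      have hr : r < q := by
        rw [← hk3]
        exact ZMod.val_lt _
      refine ⟨hr, k, hk1, hk2, (hk k).2 ?_⟩
      have h1 : (r : ZMod q) = (c : ZMod q) * (k : ZMod q) ^ 2 * (d : ZMod q)⁻¹ := by
        rw [← hk3]
        exact ZMod.natCast_zmod_val _
      rw [h1, mul_comm, mul_assoc, inv_mul_cancel₀ hd', mul_one]
  have hinj : Set.InjOn f (Finset.Icc 1 L : Finset ℕ) := by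
    intro k hk l hl hkl
    rw [Finset.mem_coe, Finset.mem_Icc] at hk hl
    have h1 : (c : ZMod q) * (k : ZMod q) ^ 2 * (d : ZMod q)⁻¹ =
        (c : ZMod q) * (l : ZMod q) ^ 2 * (d : ZMod q)⁻¹ := ZMod.val_injective q hkl
    have h2 : (c : ZMod q) * (k : ZMod q) ^ 2 = (c : ZMod q) * (l : ZMod q) ^ 2 :=
      mul_right_cancel₀ (inv_ne_zero hd') h1
    have h3 : (k : ZMod q) ^ 2 = (l : ZMod q) ^ 2 := mul_left_cancel₀ hc' h2
    rcases sq_eq_sq_iff_eq_or_eq_neg.1 h3 with h4 | h4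
    · have h5 := congrArg ZMod.val h4
      rwa [ZMod.val_natCast, ZMod.val_natCast, Nat.mod_eq_of_lt (by omega),
        Nat.mod_eq_of_lt (by omega)] at h5
    · exfalso
      have h5 : ((k + l : ℕ) : ZMod q) = 0 := by
        push_cast
        rw [h4]
        ring
      have h6 := Nat.le_of_dvd (by omega) ((ZMod.natCast_eq_zero_iff _ _).1 h5)
      omega
  unfold cnt
  rw [himg, Finset.card_image_of_injOn hinj]
  simp

open Classical in
/-- the indicator function of the bad residues -/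
def gI (L c d : ℕ) (n : ℤ) (q : ℕ) : ℝ := if Pk L c d q n then 1 else 0

theorem gI_bd (L c d : ℕ) (n : ℤ) (q : ℕ) : 0 ≤ gI L c d n q ∧ gI L c d n q ≤ 1 := by
  unfold gI
  split_ifs <;> norm_num

open Classical in
theorem sft_le (L c d N : ℕ) (S : Finset ℕ) : ((Sft L c d N S).ncard : ℝ) ≤
    ∑ n ∈ Finset.Ioc (0 : ℤ) (0 + N), ∏ q ∈ S, (1 - gI L c d n q) := by
  let F : Finset ℤ := (Finset.Ioc (0 : ℤ) (0 + N)).filter (fun n => ∀ q ∈ S, ¬ Pk L c d q n)
  have h1 : (Sft L c d N S).ncard ≤ F.card := by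
    rw [← Set.ncard_image_of_injective (Sft L c d N S) (Nat.cast_injective (R := ℤ)),
      ← Set.ncard_coe_finset F]
    apply Set.ncard_le_ncard _ F.finite_toSet
    rintro _ ⟨m, ⟨hm1, hm2, hm3⟩, rfl⟩
    rw [Finset.mem_coe, Finset.mem_filter, Finset.mem_Ioc]
    refine ⟨⟨by omega, by omega⟩, ?_⟩
    rintro q hq ⟨k, hk1, hk2, hk3⟩
    exact hm3 q hq k hk1 hk2 hk3
  have h2 : (F.card : ℝ) ≤ ∑ n ∈ F, ∏ q ∈ S, (1 - gI L c d n q) := by
    have h3 : ∀ n ∈ F, ∏ q ∈ S, (1 - gI L c d n q) = 1 := by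
      intro n hn
      apply Finset.prod_eq_one
      intro q hq
      have h4 : ¬ Pk L c d q n := (Finset.mem_filter.1 hn).2 q hq
      unfold gI
      rw [if_neg h4, sub_zero]
    rw [Finset.sum_congr rfl h3]
    simp
  have h3 : ∑ n ∈ F, ∏ q ∈ S, (1 - gI L c d n q) ≤
      ∑ n ∈ Finset.Ioc (0 : ℤ) (0 + N), ∏ q ∈ S, (1 - gI L c d n q) := by
    apply Finset.sum_le_sum_of_subset_of_nonneg (Finset.filter_subset _ _)
    intro n _ _
    exact Finset.prod_nonneg fun q _ => by linarith [(gI_bd L c d n q).2]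
  calc ((Sft L c d N S).ncard : ℝ) ≤ (F.card : ℝ) := by exact_mod_cast h1
    _ ≤ _ := h2.trans h3

open Classical in
theorem sum_gI (L c d N : ℕ) (D : Finset ℕ) :
    ∑ n ∈ Finset.Ioc (0 : ℤ) (0 + N), ∏ q ∈ D, gI L c d n q =
      (((Finset.Ioc (0 : ℤ) (0 + N)).filter (fun n => ∀ q ∈ D, Pk L c d q n)).card : ℝ) := by
  unfold gI
  simp only [Finset.prod_boole, Finset.sum_boole]

theorem cnt_le (L z r : ℕ) (S : Finset ℕ) (hS : S.card ≤ z) :
    ∑ D ∈ S.powerset.filter (fun D => D.card ≤ r), (L : ℝ) ^ D.card ≤ ((L : ℝ) * z + 1) ^ r := by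
  have h1 : ∑ D ∈ S.powerset.filter (fun D => D.card ≤ r), (L : ℝ) ^ D.card =
      ∑ j ∈ Finset.range (r + 1), ((S.card.choose j : ℕ) : ℝ) * (L : ℝ) ^ j := by
    have h2 : ∀ D ∈ S.powerset.filter (fun D => D.card ≤ r), D.card ∈ Finset.range (r + 1) := by
      intro D hD
      rw [Finset.mem_range]
      have := (Finset.mem_filter.1 hD).2
      omega
    rw [← Finset.sum_fiberwise_of_maps_to h2]
    apply Finset.sum_congr rfl
    intro j hj
    rw [Finset.mem_range] at hj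
    have h3 : (S.powerset.filter (fun D => D.card ≤ r)).filter (fun D => D.card = j) =
        S.powersetCard j := by
      ext D
      simp only [Finset.mem_filter, Finset.mem_powerset, Finset.mem_powersetCard]
      constructor
      · rintro ⟨⟨h4, _⟩, h5⟩
        exact ⟨h4, h5⟩
      · rintro ⟨h4, h5⟩
        exact ⟨⟨h4, by omega⟩, h5⟩
    rw [h3]
    rw [Finset.sum_congr rfl (g := fun _ => (L : ℝ) ^ j)
      (fun D hD => by rw [(Finset.mem_powersetCard.1 hD).2])]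
    rw [Finset.sum_const, Finset.card_powersetCard, nsmul_eq_mul]
  rw [h1, add_pow]
  apply Finset.sum_le_sum
  intro j hj
  rw [Finset.mem_range] at hj
  have h2 : ((S.card.choose j : ℕ) : ℝ) ≤ (z : ℝ) ^ j := by
    have h3 : S.card.choose j ≤ S.card ^ j := Nat.choose_le_pow _ _
    have h4 : S.card ^ j ≤ z ^ j := Nat.pow_le_pow_left hS j
    exact_mod_cast h3.trans h4
  have h3 : (1 : ℝ) ≤ ((r.choose j : ℕ) : ℝ) := by
    have h4 : 0 < r.choose j := Nat.choose_pos (by omega)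
    exact_mod_cast h4
  have h4 : (0 : ℝ) ≤ ((L : ℝ) * z) ^ j := by positivity
  calc ((S.card.choose j : ℕ) : ℝ) * (L : ℝ) ^ j ≤ (z : ℝ) ^ j * (L : ℝ) ^ j :=
        mul_le_mul_of_nonneg_right h2 (by positivity)
    _ = ((L : ℝ) * z) ^ j := by rw [mul_pow]; ring
    _ ≤ ((L : ℝ) * z) ^ j * ((r.choose j : ℕ) : ℝ) := le_mul_of_one_le_right h4 h3
    _ = ((L : ℝ) * z) ^ j * 1 ^ (r - j) * ((r.choose j : ℕ) : ℝ) := by rw [one_pow, mul_one]

theorem sve : SveStmt := by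
  classical
  intro L c d N z r S hL hr hS
  have hSp : ∀ q ∈ S, q.Prime := fun q hq => (hS q hq).1
  have hcard : S.card ≤ z := by
    have h1 : S ⊆ Finset.Icc 1 z := fun q hq => by
      rw [Finset.mem_Icc]
      exact ⟨(hSp q hq).one_lt.le, (hS q hq).2.2.1⟩
    have h2 := Finset.card_le_card h1
    simpa using h2
  let g : ℕ → ℝ := fun q => (L : ℝ) / q
  have hg : ∀ q ∈ S, 0 ≤ g q ∧ g q ≤ 1 := by
    intro q hq
    have h1 := (hS q hq).2.1
    have h2 : L ≤ q := by nlinarith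
    have h3 : (0 : ℝ) < q := by exact_mod_cast (hSp q hq).pos
    refine ⟨div_nonneg (Nat.cast_nonneg _) h3.le, (div_le_one h3).2 ?_⟩
    exact_mod_cast h2
  have hsum : ∑ q ∈ S, g q = L * sR S := by
    unfold sR
    rw [Finset.mul_sum]
    exact Finset.sum_congr rfl fun q _ => by
      show (L : ℝ) / q = L * (1 / q)
      ring
  -- the sum over `n` of the truncated sums
  have h1 : ((Sft L c d N S).ncard : ℝ) ≤
      ∑ n ∈ Finset.Ioc (0 : ℤ) (0 + N), btr (gI L c d n) S r := by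
    refine (sft_le L c d N S).trans (Finset.sum_le_sum fun n _ => ?_)
    exact (bonferroni (gI L c d n) S (fun q _ => gI_bd L c d n q) r hr).1
  have h2 : ∑ n ∈ Finset.Ioc (0 : ℤ) (0 + N), btr (gI L c d n) S r =
      ∑ D ∈ S.powerset.filter (fun D => D.card ≤ r), (-1) ^ D.card *
        ∑ n ∈ Finset.Ioc (0 : ℤ) (0 + N), ∏ q ∈ D, gI L c d n q := by
    unfold btr
    rw [Finset.sum_comm]
    exact Finset.sum_congr rfl fun D _ => by rw [Finset.mul_sum]
  have h3 : ∀ D ∈ S.powerset.filter (fun D => D.card ≤ r),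
      (-1 : ℝ) ^ D.card * ∑ n ∈ Finset.Ioc (0 : ℤ) (0 + N), ∏ q ∈ D, gI L c d n q ≤
        N * ((-1) ^ D.card * ∏ q ∈ D, g q) + (L : ℝ) ^ D.card := by
    intro D hD
    have hDS : D ⊆ S := Finset.mem_powerset.1 (Finset.mem_filter.1 hD).1
    have h4 := count_crt (Pk L c d) (pk_per L c d) D (fun q hq => hSp q (hDS hq)) 0 N
    have h5 : ∀ q ∈ D, cnt (Pk L c d) q = L := fun q hq =>
      cnt_pk L c d q hL (hSp q (hDS hq)) (hS q (hDS hq)).2.1 (hS q (hDS hq)).2.2.2.1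
        (hS q (hDS hq)).2.2.2.2
    have h6 : ∏ q ∈ D, (cnt (Pk L c d) q : ℝ) = (L : ℝ) ^ D.card := by
      rw [Finset.prod_congr rfl (fun q hq => by rw [h5 q hq]), Finset.prod_const]
    have h7 : ∏ q ∈ D, ((cnt (Pk L c d) q : ℝ) / q) = ∏ q ∈ D, g q :=
      Finset.prod_congr rfl fun q hq => by rw [h5 q hq]
    rw [h6, h7, ← sum_gI] at h4
    rw [abs_le] at h4
    rcases Nat.even_or_odd D.card with h8 | h8
    · rw [h8.neg_one_pow]
      linarith [h4.2]
    · rw [h8.neg_one_pow]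
      linarith [h4.1]
  have h4 : ∑ D ∈ S.powerset.filter (fun D => D.card ≤ r),
      (N * ((-1) ^ D.card * ∏ q ∈ D, g q) + (L : ℝ) ^ D.card) ≤
        N * btr g S r + ((L : ℝ) * z + 1) ^ r := by
    rw [Finset.sum_add_distrib, ← Finset.mul_sum]
    exact add_le_add le_rfl (cnt_le L z r S hcard)
  have h5 : btr g S r ≤ Real.exp (-(L * sR S)) + (L * sR S) ^ (r + 1) / ((r + 1).factorial : ℝ) := by
    refine (bonferroni g S hg r hr).2.trans (add_le_add ?_ ?_)
    · calc ∏ q ∈ S, (1 - g q) ≤ ∏ q ∈ S, Real.exp (-(g q)) :=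
            Finset.prod_le_prod (fun q hq => by linarith [(hg q hq).2])
              (fun q _ => by linarith [Real.add_one_le_exp (-(g q))])
        _ = Real.exp (-(L * sR S)) := by
            rw [← Real.exp_sum, Finset.sum_neg_distrib, hsum]
    · rw [← hsum]
      exact esum_le g S (fun q hq => (hg q hq).1) (r + 1)
  calc ((Sft L c d N S).ncard : ℝ) ≤ _ := h1
    _ = _ := h2
    _ ≤ _ := Finset.sum_le_sum h3
    _ ≤ N * btr g S r + ((L : ℝ) * z + 1) ^ r := h4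
    _ ≤ _ := add_le_add (mul_le_mul_of_nonneg_left h5 (Nat.cast_nonneg _)) le_rfl

end Pool.Agent.SQD.H89
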